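import Pool.Statements.S00905

set_option autoImplicit false
open Pool Pool.MP_207b86_al

namespace Pool.Agent.S00905

/-- The finite centreless group used in each coordinate. -/
abbrev F : Type := Equiv.Perm (Fin 3)

instance : TopologicalSpace F := ⊥

instance : DiscreteTopology F := ⟨rfl⟩

/-- The infinite group: a countable power of the symmetric group on three letters. -/
abbrev GG : Type := ℕ → F

/-- The evaluation of a word at a group element. -/
def ev (g : GG) : Monoid.Coprod GG (FreeGroup Unit) →* GG :=
  Monoid.Coprod.lift (MonoidHom.id GG) (FreeGroup.lift (fun _ => g))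

/-- The evaluation of a word in the coordinate `j`. -/
def evj (j : ℕ) (a : F) : Monoid.Coprod GG (FreeGroup Unit) →* F :=
  Monoid.Coprod.lift (Pi.evalMonoidHom (fun _ : ℕ => F) j) (FreeGroup.lift (fun _ => a))

lemma ev_apply (g : GG) (j : ℕ) (w : Monoid.Coprod GG (FreeGroup Unit)) :
    ev g w j = evj j (g j) w := by
  have h : (Pi.evalMonoidHom (fun _ : ℕ => F) j).comp (ev g) = evj j (g j) := by
    apply Monoid.Coprod.hom_ext
    · ext x
      simp [ev, evj]
    · ext x
      simp [ev, evj]
  rw [← h]
  rfl

lemma center_triv (a : F) (h : ∀ b : F, a * b * a⁻¹ * b⁻¹ = 1) : a = 1 := by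
  revert a
  decide

/-- The family of complements of solution sets. -/
def Sub : Set (Set GG) :=
  {U : Set GG | ∃ w : Monoid.Coprod GG (FreeGroup Unit),
          U = {g : GG | Monoid.Coprod.lift (MonoidHom.id GG) (FreeGroup.lift (fun _ => g)) w = 1}ᶜ}

lemma closed_of_word (w : Monoid.Coprod GG (FreeGroup Unit)) :
    @IsClosed GG (TopologicalSpace.generateFrom Sub) {g : GG | ev g w = 1} := by
  rw [← @isOpen_compl_iff]
  exact TopologicalSpace.isOpen_generateFrom_of_mem ⟨w, rfl⟩

/-- The word whose solution set is the translated centraliser of `b` in the coordinate `j`. -/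
def word (j : ℕ) (c b : F) : Monoid.Coprod GG (FreeGroup Unit) :=
  let x : Monoid.Coprod GG (FreeGroup Unit) :=
    Monoid.Coprod.inl (Pi.mulSingle j c⁻¹ : GG) * Monoid.Coprod.inr (FreeGroup.of ())
  let y : Monoid.Coprod GG (FreeGroup Unit) := Monoid.Coprod.inl (Pi.mulSingle j b : GG)
  let y' : Monoid.Coprod GG (FreeGroup Unit) := Monoid.Coprod.inl (Pi.mulSingle j b⁻¹ : GG)
  let x' : Monoid.Coprod GG (FreeGroup Unit) :=
    Monoid.Coprod.inr (FreeGroup.of ())⁻¹ * Monoid.Coprod.inl (Pi.mulSingle j c : GG)
  x * y * x' * y'

lemma ev_word (j : ℕ) (c b : F) (g : GG) :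
    ev g (word j c b) = 1 ↔ (c⁻¹ * g j) * b * (c⁻¹ * g j)⁻¹ * b⁻¹ = 1 := by
  constructor
  · intro h
    have h1 := congrFun h j
    simp [ev, word] at h1
    simpa [mul_assoc] using h1
  · intro h
    funext i
    by_cases hi : i = j
    · subst hi
      simp [ev, word]
      simpa [mul_assoc] using h
    · simp [ev, word, Pi.mulSingle_eq_of_ne hi]

lemma closed_point (j : ℕ) (c : F) :
    @IsClosed GG (TopologicalSpace.generateFrom Sub) {g : GG | g j = c} := by
  have h : {g : GG | g j = c} = ⋂ b : F, {g : GG | ev g (word j c b) = 1} := by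
    ext g
    simp only [Set.mem_ofPred_eq, Set.mem_iInter, ev_word]
    constructor
    · rintro rfl b
      simp
    · intro h
      have := center_triv _ h
      rw [inv_mul_eq_one] at this
      exact this.symm
  rw [h]
  exact @isClosed_iInter GG _ (TopologicalSpace.generateFrom Sub) _ fun b => closed_of_word _

lemma open_point (j : ℕ) (c : F) :
    @IsOpen GG (TopologicalSpace.generateFrom Sub) {g : GG | g j = c} := by
  rw [← @isClosed_compl_iff]
  have h : {g : GG | g j = c}ᶜ = ⋃ b : {b : F // b ≠ c}, {g : GG | g j = b} := by
    ext g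
    simp
  rw [h]
  exact @isClosed_iUnion_of_finite GG _ (TopologicalSpace.generateFrom Sub) _ _
    fun b => closed_point j b

lemma top_eq : (TopologicalSpace.generateFrom Sub : TopologicalSpace GG) =
    Pi.topologicalSpace := by
  apply le_antisymm
  · -- every product-open set is open for the generated topology
    refine le_iInf fun j => ?_
    rw [← continuous_iff_le_induced]
    refine @Continuous.mk GG F (TopologicalSpace.generateFrom Sub) _ _ fun s _ => ?_
    have h : (fun g : GG => g j) ⁻¹' s = ⋃ c ∈ s, {g : GG | g j = c} := by
      ext g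
      simp
    rw [h]
    exact @isOpen_biUnion GG _ (TopologicalSpace.generateFrom Sub) _ _ fun c _ => open_point j c
  · refine le_generateFrom ?_
    rintro U ⟨w, rfl⟩
    rw [isOpen_compl_iff]
    have h : {g : GG | Monoid.Coprod.lift (MonoidHom.id GG) (FreeGroup.lift (fun _ => g)) w = 1} =
        ⋂ j : ℕ, (fun g : GG => g j) ⁻¹' {a : F | evj j a w = 1} := by
      ext g
      simp only [Set.mem_ofPred_eq, Set.mem_iInter, Set.mem_preimage]
      constructor
      · intro h j
        rw [← ev_apply]
        exact congrFun h j
      · intro h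
        funext j
        have := h j
        rw [← ev_apply] at this
        exact this
    rw [h]
    exact isClosed_iInter fun j => (isClosed_discrete _).preimage (continuous_apply j)

/-- There is an infinite group whose Zariski topology is both compact and Hausdorff. The closed sets of that topology are generated by solution sets of one-variable equations with constants from the group. -/
theorem result :
    ∃ (G : Type) (_ : Group G) (T : TopologicalSpace G),
      Infinite G ∧
      T = TopologicalSpace.generateFrom
        {U : Set G | ∃ w : Monoid.Coprod G (FreeGroup Unit),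
          U = {g : G | Monoid.Coprod.lift (MonoidHom.id G) (FreeGroup.lift (fun _ => g)) w = 1}ᶜ} ∧
      @CompactSpace G T ∧ @T2Space G T := by
  refine ⟨GG, inferInstance, TopologicalSpace.generateFrom Sub, inferInstance, rfl, ?_, ?_⟩
  · rw [top_eq]
    infer_instance
  · rw [top_eq]
    infer_instance

end Pool.Agent.S00905
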