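import Pool.Statements.S04395
import Pool.Agent.E8helper85.NS.Final

set_option autoImplicit false
open MeasureTheory
open scoped MatrixGroups
open Pool Pool.MP_3c03ea_an

namespace Pool.Agent.S04395

/-- Let Γ be normal in a cocompact discrete subgroup Λ of SL(2,ℝ) with Λ/Γ nilpotent. Then every invertible nonsingular map of SL(2,ℝ)/Γ that commutes almost everywhere with the horocycle flow preserves Haar measure. -/
theorem result :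
  ∀ [τ : TopologicalSpace SL(2, ℝ)],
    Topology.IsEmbedding (fun g : SL(2, ℝ) => (g : Matrix (Fin 2) (Fin 2) ℝ)) →
  ∀ (u : ℝ → SL(2, ℝ)), (∀ t : ℝ, (u t : Matrix (Fin 2) (Fin 2) ℝ) = !![1, t; 0, 1]) →
  ∀ (Λ Γ : Subgroup SL(2, ℝ)),
    DiscreteTopology Λ → CompactSpace (SL(2, ℝ) ⧸ Λ) → Γ ≤ Λ →
  ∀ [hN : (Γ.subgroupOf Λ).Normal],
    Group.IsNilpotent (Λ ⧸ Γ.subgroupOf Λ) →
  ∀ [m : MeasurableSpace (SL(2, ℝ) ⧸ Γ)] [BorelSpace (SL(2, ℝ) ⧸ Γ)],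
  ∀ μ : Measure (SL(2, ℝ) ⧸ Γ), μ ≠ 0 → IsFiniteMeasureOnCompacts μ →
    SMulInvariantMeasure SL(2, ℝ) (SL(2, ℝ) ⧸ Γ) μ →
  ∀ S : (SL(2, ℝ) ⧸ Γ) ≃ᵐ (SL(2, ℝ) ⧸ Γ),
    Measure.QuasiMeasurePreserving S μ μ →
    Measure.QuasiMeasurePreserving S.symm μ μ →
    (∀ t : ℝ, ∀ᵐ x ∂μ, S (u t • x) = u t • S x) →
    μ.map S = μ := by
  exact Pool.Agent.E8helper85.NS.main_thm

end Pool.Agent.S04395
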