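import Pool.Statements.S04624

/-!
# Sketch-and-solve with an oblivious subspace injection: no `1 + O(ε)` bound at failure `0.01`

The random matrix is `2 × 2` and has three values. It is `0` with probability `201/20201`, and each
of `[[α, ±β], [±β, α]]`, `α = 201/200`, `β = 1/200`, with probability `10000/20201`. The Gram
matrices of the last two have the eigenvalues `(α ± β)²`, which are at least `1`, so the injectivity
holds even with `ε = 0`, with probability at least `0.99` and for subspaces of all dimensions; the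
matrix is isotropic since the value `0` has made room for `α² + β² > 1`. For `A = e₁` and
`B = e₁ + e₂` the optimum is `1`, while the error of sketch-and-solve is `√2` in the first case and
`√(1 + s²)` in the other two, `s = 2αβ/(α² + β²)` being a constant.
-/

set_option autoImplicit false
open MeasureTheory
open Pool Pool.MP_4d58d7_an

namespace Pool.Agent.S04624

/-- The value of the random matrix for the sign `s`. -/
noncomputable def Om (s : ℝ) : Fin 2 → Fin 2 → ℝ := ![![201 / 200, s / 200], ![s / 200, 201 / 200]]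

/-- The distribution of the random matrix. -/
noncomputable def mu : Measure (Fin 2 → Fin 2 → ℝ) :=
  ENNReal.ofReal (201 / 20201) • Measure.dirac 0 +
    (ENNReal.ofReal (10000 / 20201) • Measure.dirac (Om 1) +
      ENNReal.ofReal (10000 / 20201) • Measure.dirac (Om (-1)))

instance : IsProbabilityMeasure mu := by
  constructor
  simp only [mu, Measure.coe_add, Measure.coe_smul, Pi.add_apply, Pi.smul_apply,
    measure_univ, smul_eq_mul, mul_one]
  rw [← ENNReal.ofReal_add (by norm_num) (by norm_num),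
    ← ENNReal.ofReal_add (by norm_num) (by norm_num)]
  norm_num

theorem iso (x : Fin 2 → ℝ) :
    ∫ ω, (∑ j, (∑ i, ω i j * x i) ^ 2) ∂mu = ∑ i, x i ^ 2 := by
  have hd : ∀ a : Fin 2 → Fin 2 → ℝ,
      Integrable (fun ω : Fin 2 → Fin 2 → ℝ => ∑ j, (∑ i, ω i j * x i) ^ 2) (Measure.dirac a) :=
    fun a => integrable_dirac (by simp [enorm])
  have hs : ∀ (c : ℝ) (a : Fin 2 → Fin 2 → ℝ),
      Integrable (fun ω : Fin 2 → Fin 2 → ℝ => ∑ j, (∑ i, ω i j * x i) ^ 2)
        (ENNReal.ofReal c • Measure.dirac a) :=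
    fun c a => (hd a).smul_measure ENNReal.ofReal_ne_top
  rw [mu, integral_add_measure (hs _ _) ((hs _ _).add_measure (hs _ _)),
    integral_add_measure (hs _ _) (hs _ _)]
  simp only [integral_smul_measure, integral_dirac]
  rw [ENNReal.toReal_ofReal (by norm_num), ENNReal.toReal_ofReal (by norm_num)]
  simp only [Fin.sum_univ_two, Om]
  simp
  ring

theorem inj (s : ℝ) (hs : s ^ 2 = 1) (ε : ℝ) (hε : 0 < ε) (x : Fin 2 → ℝ) :
    (1 - ε) * ∑ i, x i ^ 2 ≤ ∑ j, (∑ i, Om s i j * x i) ^ 2 := by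
  simp only [Fin.sum_univ_two, Om]
  simp
  nlinarith [sq_nonneg (x 0), sq_nonneg (x 1), sq_nonneg (x 0 + s * x 1), sq_nonneg (x 0 - s * x 1),
    mul_nonneg hε.le (sq_nonneg (x 0)), mul_nonneg hε.le (sq_nonneg (x 1))]

theorem mu_good (S : Set (Fin 2 → Fin 2 → ℝ)) (h1 : Om 1 ∈ S) (h2 : Om (-1) ∈ S) :
    ENNReal.ofReal (99 / 100) ≤ mu S := by
  simp only [mu, Measure.coe_add, Measure.coe_smul, Pi.add_apply, Pi.smul_apply, smul_eq_mul,
    Measure.dirac_apply]
  rw [Set.indicator_of_mem h1, Set.indicator_of_mem h2]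
  simp only [Pi.one_apply, mul_one]
  rw [← ENNReal.ofReal_add (by norm_num) (by norm_num)]
  refine le_trans ?_ le_add_self
  apply ENNReal.ofReal_le_ofReal
  norm_num

theorem mu_bad (S : Set (Fin 2 → Fin 2 → ℝ)) (h0 : (0 : Fin 2 → Fin 2 → ℝ) ∉ S)
    (h1 : Om 1 ∉ S) (h2 : Om (-1) ∉ S) : mu S = 0 := by
  simp only [mu, Measure.coe_add, Measure.coe_smul, Pi.add_apply, Pi.smul_apply, smul_eq_mul,
    Measure.dirac_apply]
  rw [Set.indicator_of_notMem h0, Set.indicator_of_notMem h1, Set.indicator_of_notMem h2]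
  simp

/-- The matrix `A = e₁`. -/
def MA : Matrix (Fin 2) (Fin 1) ℝ := !![1; 0]

/-- The matrix `B = e₁ + e₂`. -/
def MB : Matrix (Fin 2) (Fin 1) ℝ := !![1; 1]

/-- The pseudoinverse of the sketched matrix. -/
noncomputable def MG (s : ℝ) : Matrix (Fin 1) (Fin 2) ℝ :=
  !![20100 / 20201, 100 * s / 20201]

theorem fail0 (K : ℝ) (hK : K < 10001 / 10000)
    (h : ∀ G : Matrix (Fin 1) (Fin 2) ℝ,
      (Matrix.transpose (Matrix.of (0 : Fin 2 → Fin 2 → ℝ)) * MA) * G *
          (Matrix.transpose (Matrix.of (0 : Fin 2 → Fin 2 → ℝ)) * MA)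
        = Matrix.transpose (Matrix.of (0 : Fin 2 → Fin 2 → ℝ)) * MA →
      G * (Matrix.transpose (Matrix.of (0 : Fin 2 → Fin 2 → ℝ)) * MA) * G = G →
      Matrix.transpose ((Matrix.transpose (Matrix.of (0 : Fin 2 → Fin 2 → ℝ)) * MA) * G)
        = (Matrix.transpose (Matrix.of (0 : Fin 2 → Fin 2 → ℝ)) * MA) * G →
      Matrix.transpose (G * (Matrix.transpose (Matrix.of (0 : Fin 2 → Fin 2 → ℝ)) * MA))
        = G * (Matrix.transpose (Matrix.of (0 : Fin 2 → Fin 2 → ℝ)) * MA) →
      ∀ X : Matrix (Fin 1) (Fin 1) ℝ,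
        Real.sqrt (∑ i, ∑ j, ((MA * (G * Matrix.transpose (Matrix.of (0 : Fin 2 → Fin 2 → ℝ)) * MB)
          - MB) i j) ^ 2) ≤ K * Real.sqrt (∑ i, ∑ j, ((MA * X - MB) i j) ^ 2)) : False := by
  have h1 := h 0 (by simp) (by simp) (by simp) (by simp) !![1]
  have e1 : (∑ i, ∑ j, ((MA * ((0 : Matrix (Fin 1) (Fin 2) ℝ) *
      Matrix.transpose (Matrix.of (0 : Fin 2 → Fin 2 → ℝ)) * MB) - MB) i j) ^ 2) = 2 := by
    simp [MB]
    norm_num
  have e2 : (∑ i, ∑ j, ((MA * !![(1 : ℝ)] - MB) i j) ^ 2) = 1 := by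
    simp [MA, MB, Fin.sum_univ_two]
  rw [e1, e2, Real.sqrt_one, mul_one] at h1
  have h2 : (10001 / 10000 : ℝ) ≤ Real.sqrt 2 := Real.le_sqrt_of_sq_le (by norm_num)
  linarith

theorem failS (s : ℝ) (hs : s ^ 2 = 1) (K : ℝ) (hK : K < 100001 / 100000)
    (h : ∀ G : Matrix (Fin 1) (Fin 2) ℝ,
      (Matrix.transpose (Matrix.of (Om s)) * MA) * G * (Matrix.transpose (Matrix.of (Om s)) * MA)
        = Matrix.transpose (Matrix.of (Om s)) * MA →
      G * (Matrix.transpose (Matrix.of (Om s)) * MA) * G = G →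
      Matrix.transpose ((Matrix.transpose (Matrix.of (Om s)) * MA) * G)
        = (Matrix.transpose (Matrix.of (Om s)) * MA) * G →
      Matrix.transpose (G * (Matrix.transpose (Matrix.of (Om s)) * MA))
        = G * (Matrix.transpose (Matrix.of (Om s)) * MA) →
      ∀ X : Matrix (Fin 1) (Fin 1) ℝ,
        Real.sqrt (∑ i, ∑ j, ((MA * (G * Matrix.transpose (Matrix.of (Om s)) * MB)
          - MB) i j) ^ 2) ≤ K * Real.sqrt (∑ i, ∑ j, ((MA * X - MB) i j) ^ 2)) : False := by
  have eY : Matrix.transpose (Matrix.of (Om s)) * MA = !![201 / 200; s / 200] := by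
    ext i j
    fin_cases i <;> fin_cases j <;>
      simp [Matrix.mul_apply, Fin.sum_univ_two, MA, Om]
  have eGY : MG s * !![201 / 200; s / 200] = 1 := by
    ext i j
    fin_cases i <;> fin_cases j <;>
      simp [Matrix.mul_apply, Fin.sum_univ_two, MG]
    nlinarith
  have eYG : !![201 / 200; s / 200] * MG s =
      !![201 / 200 * (20100 / 20201), 201 / 200 * (100 * s / 20201);
        s / 200 * (20100 / 20201), s / 200 * (100 * s / 20201)] := by
    ext i j
    fin_cases i <;> fin_cases j <;>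
      simp [Matrix.mul_apply, MG]
  have h1 := h (MG s) (by rw [eY, Matrix.mul_assoc, eGY, Matrix.mul_one])
    (by rw [eY, eGY, Matrix.one_mul])
    (by
      rw [eY, eYG]
      ext i j
      fin_cases i <;> fin_cases j <;> simp
      all_goals ring)
    (by rw [eY, eGY, Matrix.transpose_one]) !![1]
  have e0 : MG s * Matrix.transpose (Matrix.of (Om s)) * MB = !![1 + 201 * s / 20201] := by
    have eB : Matrix.transpose (Matrix.of (Om s)) * MB =
        !![201 / 200 + s / 200; s / 200 + 201 / 200] := by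
      ext i j
      fin_cases i <;> fin_cases j <;>
        simp [Matrix.mul_apply, Fin.sum_univ_two, MB, Om]
    rw [Matrix.mul_assoc, eB]
    ext i j
    fin_cases i; fin_cases j
    simp [Matrix.mul_apply, Fin.sum_univ_two, MG]
    nlinarith
  have e1 : (∑ i, ∑ j, ((MA * (MG s * Matrix.transpose (Matrix.of (Om s)) * MB)
      - MB) i j) ^ 2) = 1 + (201 / 20201) ^ 2 := by
    rw [e0]
    simp [MA, MB]
    rw [div_pow, mul_pow, hs]
    norm_num
  have e2 : (∑ i, ∑ j, ((MA * !![(1 : ℝ)] - MB) i j) ^ 2) = 1 := by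
    simp [MA, MB, Fin.sum_univ_two]
  rw [e1, e2, Real.sqrt_one, mul_one] at h1
  have h2 : (100001 / 100000 : ℝ) ≤ Real.sqrt (1 + (201 / 20201) ^ 2) :=
    Real.le_sqrt_of_sq_le (by norm_num)
  linarith

theorem rankA : MA.rank = 1 := by
  apply le_antisymm
  · simpa using Matrix.rank_le_card_width MA
  · have h : (Matrix.transpose MA * MA).rank = MA.rank := Matrix.rank_transpose_mul_self MA
    have h2 : Matrix.transpose MA * MA = 1 := by
      ext i j
      fin_cases i; fin_cases j
      simp [MA, Matrix.mul_apply, Fin.sum_univ_two]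
    rw [← h, h2, Matrix.rank_one]
    simp

/-- The negation of the preceding statement: There are constants C and c₀>0 such that, for any isotropic n×k random matrix Ω that is a dimension-d OSI with injectivity 1−ε and failure 0.01, sketch-and-solve has error at most (1+Cε)·OPT with probability at least c₀. -/
theorem result :
    ¬ (∃ C : ℝ, ∃ c₀ : ℝ, 0 < c₀ ∧
    ∀ (n d p k : ℕ), 0 < n → 0 < d → 0 < p → 0 < k →
    ∀ ε : ℝ, 0 < ε → ε < 1 →
    ∀ (A : Matrix (Fin n) (Fin d) ℝ), A.rank = d →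
    ∀ (B : Matrix (Fin n) (Fin p) ℝ),
    ∀ (μ : Measure (Fin n → Fin k → ℝ)) [IsProbabilityMeasure μ],
      (∀ x : Fin n → ℝ, ∫ ω, (∑ j, (∑ i, ω i j * x i) ^ 2) ∂μ = ∑ i, x i ^ 2) →
      (∀ V : Submodule ℝ (Fin n → ℝ), Module.finrank ℝ V = d →
         ENNReal.ofReal (99 / 100) ≤
           μ {ω | ∀ x ∈ V, (1 - ε) * ∑ i, x i ^ 2 ≤ ∑ j, (∑ i, ω i j * x i) ^ 2}) →
      ENNReal.ofReal c₀ ≤ μ {ω | ∀ G : Matrix (Fin d) (Fin k) ℝ,
          (Matrix.transpose (Matrix.of ω) * A) * G * (Matrix.transpose (Matrix.of ω) * A)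
              = Matrix.transpose (Matrix.of ω) * A →
          G * (Matrix.transpose (Matrix.of ω) * A) * G = G →
          Matrix.transpose ((Matrix.transpose (Matrix.of ω) * A) * G)
              = (Matrix.transpose (Matrix.of ω) * A) * G →
          Matrix.transpose (G * (Matrix.transpose (Matrix.of ω) * A))
              = G * (Matrix.transpose (Matrix.of ω) * A) →
          ∀ X : Matrix (Fin d) (Fin p) ℝ,
            Real.sqrt (∑ i, ∑ j, ((A * (G * Matrix.transpose (Matrix.of ω) * B) - B) i j) ^ 2) ≤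
              (1 + C * ε) * Real.sqrt (∑ i, ∑ j, ((A * X - B) i j) ^ 2)}) := by
  rintro ⟨C, c₀, hc₀, H⟩
  obtain ⟨ε, hε0, hε1, hCε⟩ : ∃ ε : ℝ, 0 < ε ∧ ε < 1 ∧ C * ε < 1 / 100000 := by
    have hpos : (0 : ℝ) < 1 + |C| := by positivity
    refine ⟨1 / (200000 * (1 + |C|)), by positivity, ?_, ?_⟩
    · rw [div_lt_one (by positivity)]
      nlinarith [abs_nonneg C]
    · have h1 : C * (1 / (200000 * (1 + |C|))) ≤ |C| * (1 / (200000 * (1 + |C|))) :=
        mul_le_mul_of_nonneg_right (le_abs_self C) (by positivity)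
      refine lt_of_le_of_lt h1 ?_
      rw [mul_one_div, div_lt_div_iff₀ (by positivity) (by norm_num)]
      nlinarith [abs_nonneg C]
  have h := H 2 1 1 2 (by norm_num) (by norm_num) (by norm_num) (by norm_num) ε hε0 hε1 MA rankA MB
    mu iso (fun V _ => mu_good _ (fun x _ => inj 1 (by norm_num) ε hε0 x)
      (fun x _ => inj (-1) (by norm_num) ε hε0 x))
  rw [mu_bad] at h
  · have : 0 < ENNReal.ofReal c₀ := ENNReal.ofReal_pos.2 hc₀
    exact absurd h (not_le.2 this)
  · intro h0
    exact fail0 (1 + C * ε) (by linarith) h0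
  · intro h0
    exact failS 1 (by norm_num) (1 + C * ε) (by linarith) h0
  · intro h0
    exact failS (-1) (by norm_num) (1 + C * ε) (by linarith) h0

end Pool.Agent.S04624
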