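import Pool.Statements.S05106
import Pool.Agent.E8helper21.NWWave

set_option autoImplicit false
open Pool Pool.MP_7987d1_an

namespace Pool.Agent.S05106

open Pool.Agent.E8helper21.NWWave

/-- The negation of the preceding statement: For 1≤n≤8, every C² solution of Δu−u_t=u³−u for t<0 with ∣u∣≤1, ∂u/∂x_n>0 and u_t≥0 has the form u(x,t)=g(ν·x) for a unit vector ν, i.e. is one-dimensional and time-independent. -/
theorem result :
    ¬ (∀ m : ℕ, m + 1 ≤ 8 → ∀ u : EuclideanSpace ℝ (Fin (m + 1)) × ℝ → ℝ,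
    ContDiffOn ℝ 2 u {p | p.2 < 0} →
    (∀ x : EuclideanSpace ℝ (Fin (m + 1)), ∀ t : ℝ, t < 0 →
      |u (x, t)| ≤ 1 ∧
      (∑ i : Fin (m + 1), iteratedFDeriv ℝ 2 (fun y => u (y, t)) x
          (fun _ => EuclideanSpace.single i (1 : ℝ)))
        - deriv (fun s => u (x, s)) t = u (x, t) ^ 3 - u (x, t) ∧
      0 < fderiv ℝ (fun y => u (y, t)) x (EuclideanSpace.single (Fin.last m) (1 : ℝ)) ∧
      0 ≤ deriv (fun s => u (x, s)) t) →
    ∃ ν : EuclideanSpace ℝ (Fin (m + 1)), ‖ν‖ = 1 ∧
      ∃ g : ℝ → ℝ, ∀ x : EuclideanSpace ℝ (Fin (m + 1)), ∀ t : ℝ, t < 0 →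
        u (x, t) = g (inner ℝ ν x)) := by
  intro H
  obtain ⟨ν, -, g, hg⟩ := H 0 (by norm_num) (front 0)
    (((front_contDiff 0).of_le (WithTop.coe_le_coe.2 le_top)).contDiffOn) (by
      intro x t ht
      have h0 := front_pos 0 (x, t)
      have h1 := front_lt_one 0 (x, t)
      refine ⟨by rw [abs_of_pos h0]; exact h1.le, ?_, ?_, ?_⟩
      · rw [(hasDerivAt_time 0 x t).deriv, Finset.sum_eq_single (Fin.last 0)]
        · rw [second, if_pos rfl]
          ring
        · intro i _ hi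
          rw [second, if_neg hi]
        · intro h
          exact absurd (Finset.mem_univ _) h
      · rw [(hasFDerivAt_space 0 x t).fderiv]
        have h2 : (0 : ℝ) < 1 / √2 := by positivity
        have h3 : 0 < front 0 (x, t) * (1 - front 0 (x, t)) * (1 / √2) :=
          mul_pos (mul_pos h0 (by linarith)) h2
        simpa using h3
      · rw [(hasDerivAt_time 0 x t).deriv]
        have h3 : 0 < front 0 (x, t) * (1 - front 0 (x, t)) * (3 / 2) :=
          mul_pos (mul_pos h0 (by linarith)) (by norm_num)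
        exact h3.le)
  have h1 := hg 0 (-1) (by norm_num)
  have h2 := hg 0 (-2) (by norm_num)
  have h3 : front 0 ((0 : EuclideanSpace ℝ (Fin 1)), (-1 : ℝ)) =
      front 0 ((0 : EuclideanSpace ℝ (Fin 1)), (-2 : ℝ)) := h1.trans h2.symm
  unfold front at h3
  rw [Real.sigmoid_inj] at h3
  norm_num at h3

end Pool.Agent.S05106
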