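import Pool.Statements.S09406
import Pool.Agent.E8helper36.K9.Main
import Pool.Agent.E8helper36.K9.Draw

set_option autoImplicit false
open Pool Pool.MP_6f60ef_co

namespace Pool.Agent.S09406

open Pool.Agent.E8helper36.K9 in
/-- A layer without crossings is plane. -/
theorem plane_of_no_crossing (c : Fin 9 → Fin 9 → Fin 2) (p : Fin 2 → Fin 9 → ℂ)
    (γ : Fin 2 → Fin 9 → Fin 9 → ℝ → ℂ) (hc : ∀ u v : Fin 9, u ≠ v → c u v = c v u)
    (hp : ∀ i : Fin 2, Function.Injective (p i))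
    (hγ : ∀ i : Fin 2, ∀ u v : Fin 9, (⊤ : SimpleGraph (Fin 9)).Adj u v → c u v = i →
            ContinuousOn (γ i u v) (Set.Icc (0:ℝ) 1) ∧
            Set.InjOn (γ i u v) (Set.Icc (0:ℝ) 1) ∧
            γ i u v 0 = p i u ∧ γ i u v 1 = p i v ∧
            (∀ t : ℝ, 0 ≤ t → t ≤ 1 → γ i v u t = γ i u v (1 - t)) ∧
            ∀ t : ℝ, 0 < t → t < 1 → ∀ w : Fin 9, γ i u v t ≠ p i w)
    (i : Fin 2)
    (hX : ∀ u v u' v' : Fin 9, ∀ z : ℂ, u ≠ v → u' ≠ v' → c u v = i → c u' v' = i →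
      ¬ (u = u' ∧ v = v') → ¬ (u = v' ∧ v = u') → (∃ t : ℝ, 0 < t ∧ t < 1 ∧ γ i u v t = z) →
      (∃ t : ℝ, 0 < t ∧ t < 1 ∧ γ i u' v' t = z) → False) :
    Plane (SimpleGraph.fromRel (fun u v => (⊤ : SimpleGraph (Fin 9)).Adj u v ∧ c u v = i)) := by
  have hadj : ∀ u v, (SimpleGraph.fromRel (fun u v => (⊤ : SimpleGraph (Fin 9)).Adj u v ∧
      c u v = i)).Adj u v → u ≠ v ∧ c u v = i := by
    intro u v h
    rw [SimpleGraph.fromRel_adj] at h
    rcases h with ⟨h1, h2 | h2⟩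
    · exact ⟨h1, h2.2⟩
    · exact ⟨h1, by rw [hc u v h1]; exact h2.2⟩
  refine ⟨p i, γ i, ?_, ?_⟩
  · intro u v h
    obtain ⟨h1, h2⟩ := hadj u v h
    obtain ⟨a1, a2, a3, a4, a5, a6⟩ := hγ i u v h1 h2
    exact ⟨a1, a3, a4⟩
  · intro u v u' v' h h' n1 n2 n3 n4
    obtain ⟨h1, h2⟩ := hadj u v h
    obtain ⟨h1', h2'⟩ := hadj u' v' h'
    obtain ⟨a1, a2, a3, a4, a5, a6⟩ := hγ i u v h1 h2
    obtain ⟨b1, b2, b3, b4, b5, b6⟩ := hγ i u' v' h1' h2'
    rw [Set.disjoint_left]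
    rintro z ⟨t, ht, rfl⟩ ⟨s, hs, hst⟩
    rcases ht.1.eq_or_lt with t0 | t0
    · rw [← t0, a3] at hst
      rcases hs.1.eq_or_lt with s0 | s0
      · rw [← s0, b3] at hst; exact n1 (hp i hst.symm)
      · rcases hs.2.eq_or_lt with s1 | s1
        · rw [s1, b4] at hst; exact n2 (hp i hst.symm)
        · exact b6 s s0 s1 u hst
    · rcases ht.2.eq_or_lt with t1 | t1
      · rw [t1, a4] at hst
        rcases hs.1.eq_or_lt with s0 | s0
        · rw [← s0, b3] at hst; exact n3 (hp i hst.symm)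
        · rcases hs.2.eq_or_lt with s1 | s1
          · rw [s1, b4] at hst; exact n4 (hp i hst.symm)
          · exact b6 s s0 s1 v hst
      · rcases hs.1.eq_or_lt with s0 | s0
        · rw [← s0, b3] at hst; exact a6 t t0 t1 u' hst.symm
        · rcases hs.2.eq_or_lt with s1 | s1
          · rw [s1, b4] at hst; exact a6 t t0 t1 v' hst.symm
          · exact hX u v u' v' (γ i u v t) h1 h1' h2 h2' (fun h => n1 h.1) (fun h => n2 h.1)
              ⟨t, t0, t1, rfl⟩ ⟨s, s0, s1, hst⟩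

/-- the eight descriptions of a crossing -/
def eight (i : Fin 2) (u v u' v' : Fin 9) (z : ℂ) (b : Bool × Bool × Bool) :
    Fin 2 × Fin 9 × Fin 9 × Fin 9 × Fin 9 × ℂ :=
  match b with
  | (false, false, false) => (i, u, v, u', v', z)
  | (true, false, false) => (i, v, u, u', v', z)
  | (false, true, false) => (i, u, v, v', u', z)
  | (true, true, false) => (i, v, u, v', u', z)
  | (false, false, true) => (i, u', v', u, v, z)
  | (true, false, true) => (i, u', v', v, u, z)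
  | (false, true, true) => (i, v', u', u, v, z)
  | (true, true, true) => (i, v', u', v, u, z)

theorem eight_inj (i : Fin 2) (u v u' v' : Fin 9) (z : ℂ) (h1 : u ≠ v) (h2 : u' ≠ v')
    (h3 : ¬ (u = u' ∧ v = v')) (h4 : ¬ (u = v' ∧ v = u')) :
    Function.Injective (eight i u v u' v' z) := by
  rintro ⟨a, b, s⟩ ⟨a', b', s'⟩ h
  have h5 := h1.symm
  have h6 := h2.symm
  have h7 : ¬ (u' = u ∧ v' = v) := fun h => h3 ⟨h.1.symm, h.2.symm⟩
  have h8 : ¬ (v' = u ∧ u' = v) := fun h => h4 ⟨h.1.symm, h.2.symm⟩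
  cases a <;> cases b <;> cases s <;> cases a' <;> cases b' <;> cases s' <;>
    first
    | rfl
    | (exfalso
       simp only [eight, Prod.mk.injEq, true_and, and_true] at h
       tauto)

open Pool.Agent.E8helper36.K9 in
/-- The crossings of the explicit drawing. -/
theorem draw_crossing (i : Fin 2) (u v u' v' : Fin 9) (z : ℂ) (h1 : u ≠ v) (h2 : u' ≠ v')
    (h3 : Draw.col u v = i) (h4 : Draw.col u' v' = i) (h5 : ¬ (u = u' ∧ v = v'))
    (h6 : ¬ (u = v' ∧ v = u')) (h7 : ∃ t : ℝ, 0 < t ∧ t < 1 ∧ Draw.arc i u v t = z)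
    (h8 : ∃ t : ℝ, 0 < t ∧ t < 1 ∧ Draw.arc i u' v' t = z) :
    i = 1 ∧ (u, v, u', v') ∈ Draw.T8 ∧ z = Draw.z0 := by
  obtain ⟨t, t0, t1, ht⟩ := h7
  obtain ⟨s, s0, s1, hs⟩ := h8
  have h := Draw.all_ok i u v u' v'
  unfold Draw.okPair at h
  simp only [Bool.or_eq_true, Bool.and_eq_true, decide_eq_true_eq] at h
  rcases h with (((((((h | h) | h) | h) | h) | h) | h) | h) | h
  · exact absurd h h1
  · exact absurd h h2
  · exact absurd h3 h
  · exact absurd h4 h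
  · exact absurd h h5
  · exact absurd h h6
  · exact absurd (ht.trans hs.symm) (Draw.sep_sound i u v u' v' h t s s0 s1)
  · exact absurd (hs.trans ht.symm) (Draw.sep_sound i u' v' u v h s t t0 t1)
  · obtain ⟨rfl, h⟩ := h
    refine ⟨rfl, List.contains_iff_mem.mp h, ?_⟩
    rw [← ht]
    exact Draw.cross_unique u v u' v' h t s (ht.trans hs.symm)

open Pool.Agent.E8helper36.K9 in
theorem draw_valid (i : Fin 2) (u v : Fin 9) (h : u ≠ v) :
    ContinuousOn (Draw.arc i u v) (Set.Icc (0:ℝ) 1) ∧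
      Set.InjOn (Draw.arc i u v) (Set.Icc (0:ℝ) 1) ∧
      Draw.arc i u v 0 = Draw.pos i u ∧ Draw.arc i u v 1 = Draw.pos i v ∧
      (∀ t : ℝ, 0 ≤ t → t ≤ 1 → Draw.arc i v u t = Draw.arc i u v (1 - t)) ∧
      ∀ t : ℝ, 0 < t → t < 1 → ∀ w : Fin 9, Draw.arc i u v t ≠ Draw.pos i w := by
  refine ⟨?_, ?_, ?_, ?_, ?_, ?_⟩
  · unfold Draw.arc
    fun_prop
  · intro t _ s _ hts
    have e1 := congrArg Complex.re hts
    have e2 := congrArg Complex.im hts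
    simp only [Draw.arc_re, Draw.arc_im] at e1 e2
    rcases Draw.distinct i u v h with h1 | h1
    · have h2 : (Draw.X i u : ℝ) ≠ Draw.X i v := by exact_mod_cast h1
      have h3 : (s - t) * ((Draw.X i u : ℝ) - Draw.X i v) = 0 := by linarith
      rcases mul_eq_zero.mp h3 with h4 | h4
      · linarith
      · exact absurd (sub_eq_zero.mp h4) h2
    · have h2 : (Draw.Y i u : ℝ) ≠ Draw.Y i v := by exact_mod_cast h1
      have h3 : (s - t) * ((Draw.Y i u : ℝ) - Draw.Y i v) = 0 := by linarith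
      rcases mul_eq_zero.mp h3 with h4 | h4
      · linarith
      · exact absurd (sub_eq_zero.mp h4) h2
  · apply Complex.ext
    · rw [Draw.arc_re, Draw.pos_re]; ring
    · rw [Draw.arc_im, Draw.pos_im]; ring
  · apply Complex.ext
    · rw [Draw.arc_re, Draw.pos_re]; ring
    · rw [Draw.arc_im, Draw.pos_im]; ring
  · intro t _ _
    apply Complex.ext
    · rw [Draw.arc_re, Draw.arc_re]; ring
    · rw [Draw.arc_im, Draw.arc_im]; ring
  · intro t t0 t1 w hw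
    have e1 := congrArg Complex.re hw
    have e2 := congrArg Complex.im hw
    rw [Draw.arc_re, Draw.pos_re] at e1
    rw [Draw.arc_im, Draw.pos_im] at e2
    by_cases hwu : w = u
    · subst hwu
      rcases Draw.distinct i w v h with h1 | h1
      · have h2 : (Draw.X i w : ℝ) ≠ Draw.X i v := by exact_mod_cast h1
        have h3 : t * ((Draw.X i v : ℝ) - Draw.X i w) = 0 := by linarith
        rcases mul_eq_zero.mp h3 with h4 | h4
        · linarith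
        · exact h2 (sub_eq_zero.mp h4).symm
      · have h2 : (Draw.Y i w : ℝ) ≠ Draw.Y i v := by exact_mod_cast h1
        have h3 : t * ((Draw.Y i v : ℝ) - Draw.Y i w) = 0 := by linarith
        rcases mul_eq_zero.mp h3 with h4 | h4
        · linarith
        · exact h2 (sub_eq_zero.mp h4).symm
    by_cases hwv : w = v
    · subst hwv
      rcases Draw.distinct i u w h with h1 | h1
      · have h2 : (Draw.X i u : ℝ) ≠ Draw.X i w := by exact_mod_cast h1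
        have h3 : (1 - t) * ((Draw.X i u : ℝ) - Draw.X i w) = 0 := by linarith
        rcases mul_eq_zero.mp h3 with h4 | h4
        · linarith
        · exact h2 (sub_eq_zero.mp h4)
      · have h2 : (Draw.Y i u : ℝ) ≠ Draw.Y i w := by exact_mod_cast h1
        have h3 : (1 - t) * ((Draw.Y i u : ℝ) - Draw.Y i w) = 0 := by linarith
        rcases mul_eq_zero.mp h3 with h4 | h4
        · linarith
        · exact h2 (sub_eq_zero.mp h4)
    · have h1 := Draw.general i u v w h hwu hwv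
      apply h1
      have : ((Draw.o i u v w : ℤ) : ℝ) = 0 := by
        unfold Draw.o
        push_cast
        rw [← e1, ← e2]
        ring
      exact_mod_cast this

theorem draw_pos_inj (i : Fin 2) : Function.Injective (Pool.Agent.E8helper36.K9.Draw.pos i) := by
  intro u v h
  by_contra hne
  have e1 := congrArg Complex.re h
  have e2 := congrArg Complex.im h
  rw [Pool.Agent.E8helper36.K9.Draw.pos_re, Pool.Agent.E8helper36.K9.Draw.pos_re] at e1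
  rw [Pool.Agent.E8helper36.K9.Draw.pos_im, Pool.Agent.E8helper36.K9.Draw.pos_im] at e2
  rcases Pool.Agent.E8helper36.K9.Draw.distinct i u v hne with h1 | h1
  · exact h1 (by exact_mod_cast e1)
  · exact h1 (by exact_mod_cast e2)


theorem mem_eight (c : Fin 9 → Fin 9 → Fin 2) (γ : Fin 2 → Fin 9 → Fin 9 → ℝ → ℂ)
    (hc : ∀ u v : Fin 9, u ≠ v → c u v = c v u) (i : Fin 2)
    (hrev : ∀ u v : Fin 9, u ≠ v → c u v = i → ∀ t : ℝ, 0 ≤ t → t ≤ 1 → γ i v u t = γ i u v (1 - t))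
    (u v u' v' : Fin 9) (z : ℂ) (h1 : u ≠ v) (h2 : u' ≠ v') (h3 : c u v = i) (h4 : c u' v' = i)
    (h5 : ¬ (u = u' ∧ v = v')) (h6 : ¬ (u = v' ∧ v = u'))
    (h7 : ∃ t : ℝ, 0 < t ∧ t < 1 ∧ γ i u v t = z) (h8 : ∃ t : ℝ, 0 < t ∧ t < 1 ∧ γ i u' v' t = z)
    (b : Bool × Bool × Bool) : eight i u v u' v' z b ∈
        {x : Fin 2 × Fin 9 × Fin 9 × Fin 9 × Fin 9 × ℂ |
              (⊤ : SimpleGraph (Fin 9)).Adj x.2.1 x.2.2.1 ∧ (⊤ : SimpleGraph (Fin 9)).Adj x.2.2.2.1 x.2.2.2.2.1 ∧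
              c x.2.1 x.2.2.1 = x.1 ∧ c x.2.2.2.1 x.2.2.2.2.1 = x.1 ∧
              ¬ (x.2.1 = x.2.2.2.1 ∧ x.2.2.1 = x.2.2.2.2.1) ∧
              ¬ (x.2.1 = x.2.2.2.2.1 ∧ x.2.2.1 = x.2.2.2.1) ∧
              (∃ t : ℝ, 0 < t ∧ t < 1 ∧ γ x.1 x.2.1 x.2.2.1 t = x.2.2.2.2.2) ∧
              (∃ t : ℝ, 0 < t ∧ t < 1 ∧ γ x.1 x.2.2.2.1 x.2.2.2.2.1 t = x.2.2.2.2.2)} := by
  have rev : ∀ u v : Fin 9, u ≠ v → c u v = i →
      (∃ t : ℝ, 0 < t ∧ t < 1 ∧ γ i u v t = z) → ∃ t : ℝ, 0 < t ∧ t < 1 ∧ γ i v u t = z := by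
    rintro u v h h' ⟨t, t0, t1, ht⟩
    refine ⟨1 - t, by linarith, by linarith, ?_⟩
    rw [hrev u v h h' (1 - t) (by linarith) (by linarith), ← ht]
    congr 1
    ring
  have r1 := rev u v h1 h3 h7
  have r2 := rev u' v' h2 h4 h8
  have b2 : c v u = i := (hc _ _ h1).symm.trans h3
  have b4 : c v' u' = i := (hc _ _ h2).symm.trans h4
  obtain ⟨b1', b2', b3'⟩ := b
  cases b1' <;> cases b2' <;> cases b3'
  · exact ⟨h1, h2, h3, h4, h5, h6, h7, h8⟩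
  · exact ⟨h2, h1, h4, h3, fun h => h5 ⟨h.1.symm, h.2.symm⟩, fun h => h6 ⟨h.2.symm, h.1.symm⟩, h8, h7⟩
  · exact ⟨h1, h2.symm, h3, b4, fun h => h6 h, fun h => h5 h, h7, r2⟩
  · exact ⟨h2.symm, h1, b4, h3, fun h => h6 ⟨h.1.symm, h.2.symm⟩, fun h => h5 ⟨h.2.symm, h.1.symm⟩, r2, h7⟩
  · exact ⟨h1.symm, h2, b2, h4, fun h => h6 ⟨h.2, h.1⟩, fun h => h5 ⟨h.2, h.1⟩, r1, h8⟩
  · exact ⟨h2, h1.symm, h4, b2, fun h => h6 ⟨h.2.symm, h.1.symm⟩, fun h => h5 ⟨h.1.symm, h.2.symm⟩, h8, r1⟩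
  · exact ⟨h1.symm, h2.symm, b2, b4, fun h => h5 ⟨h.2, h.1⟩, fun h => h6 ⟨h.2, h.1⟩, r1, r2⟩
  · exact ⟨h2.symm, h1.symm, b4, b2, fun h => h5 ⟨h.2.symm, h.1.symm⟩, fun h => h6 ⟨h.1.symm, h.2.symm⟩, r2, r1⟩


/-- The negation of the preceding statement: If G is a complete graph or a complete bipartite graph with an even number of edges, then G has a drawing on two planes with minimum total crossings among all such drawings whose two plane subgraphs are isomorphic. -/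
theorem result :
    ¬ (∀ (V : Type) [Finite V] (G : SimpleGraph V),
      (G = ⊤ ∨ ∃ a b : ℕ, Nonempty (G ≃g completeBipartiteGraph (Fin a) (Fin b))) →
      Even (Set.ncard G.edgeSet) →
      ∃ (c : V → V → Fin 2) (p : Fin 2 → V → ℂ) (γ : Fin 2 → V → V → ℝ → ℂ),
        ((∀ u v : V, G.Adj u v → c u v = c v u) ∧
          (∀ i : Fin 2, Function.Injective (p i)) ∧
          (∀ i : Fin 2, ∀ u v : V, G.Adj u v → c u v = i →
            ContinuousOn (γ i u v) (Set.Icc (0:ℝ) 1) ∧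
            Set.InjOn (γ i u v) (Set.Icc (0:ℝ) 1) ∧
            γ i u v 0 = p i u ∧ γ i u v 1 = p i v ∧
            (∀ t : ℝ, 0 ≤ t → t ≤ 1 → γ i v u t = γ i u v (1 - t)) ∧
            ∀ t : ℝ, 0 < t → t < 1 → ∀ w : V, γ i u v t ≠ p i w) ∧
          Set.Finite {x : Fin 2 × V × V × V × V × ℂ |
            G.Adj x.2.1 x.2.2.1 ∧ G.Adj x.2.2.2.1 x.2.2.2.2.1 ∧
            c x.2.1 x.2.2.1 = x.1 ∧ c x.2.2.2.1 x.2.2.2.2.1 = x.1 ∧
            ¬ (x.2.1 = x.2.2.2.1 ∧ x.2.2.1 = x.2.2.2.2.1) ∧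
            ¬ (x.2.1 = x.2.2.2.2.1 ∧ x.2.2.1 = x.2.2.2.1) ∧
            (∃ t : ℝ, 0 < t ∧ t < 1 ∧ γ x.1 x.2.1 x.2.2.1 t = x.2.2.2.2.2) ∧
            (∃ t : ℝ, 0 < t ∧ t < 1 ∧ γ x.1 x.2.2.2.1 x.2.2.2.2.1 t = x.2.2.2.2.2)}) ∧
        Nonempty (SimpleGraph.fromRel (fun u v => G.Adj u v ∧ c u v = 0) ≃g
          SimpleGraph.fromRel (fun u v => G.Adj u v ∧ c u v = 1)) ∧
        ∀ (c' : V → V → Fin 2) (p' : Fin 2 → V → ℂ) (γ' : Fin 2 → V → V → ℝ → ℂ),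
          ((∀ u v : V, G.Adj u v → c' u v = c' v u) ∧
            (∀ i : Fin 2, Function.Injective (p' i)) ∧
            (∀ i : Fin 2, ∀ u v : V, G.Adj u v → c' u v = i →
              ContinuousOn (γ' i u v) (Set.Icc (0:ℝ) 1) ∧
              Set.InjOn (γ' i u v) (Set.Icc (0:ℝ) 1) ∧
              γ' i u v 0 = p' i u ∧ γ' i u v 1 = p' i v ∧
              (∀ t : ℝ, 0 ≤ t → t ≤ 1 → γ' i v u t = γ' i u v (1 - t)) ∧
              ∀ t : ℝ, 0 < t → t < 1 → ∀ w : V, γ' i u v t ≠ p' i w) ∧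
            Set.Finite {x : Fin 2 × V × V × V × V × ℂ |
              G.Adj x.2.1 x.2.2.1 ∧ G.Adj x.2.2.2.1 x.2.2.2.2.1 ∧
              c' x.2.1 x.2.2.1 = x.1 ∧ c' x.2.2.2.1 x.2.2.2.2.1 = x.1 ∧
              ¬ (x.2.1 = x.2.2.2.1 ∧ x.2.2.1 = x.2.2.2.2.1) ∧
              ¬ (x.2.1 = x.2.2.2.2.1 ∧ x.2.2.1 = x.2.2.2.1) ∧
              (∃ t : ℝ, 0 < t ∧ t < 1 ∧ γ' x.1 x.2.1 x.2.2.1 t = x.2.2.2.2.2) ∧
              (∃ t : ℝ, 0 < t ∧ t < 1 ∧ γ' x.1 x.2.2.2.1 x.2.2.2.2.1 t = x.2.2.2.2.2)}) →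
          Set.ncard {x : Fin 2 × V × V × V × V × ℂ |
              G.Adj x.2.1 x.2.2.1 ∧ G.Adj x.2.2.2.1 x.2.2.2.2.1 ∧
              c x.2.1 x.2.2.1 = x.1 ∧ c x.2.2.2.1 x.2.2.2.2.1 = x.1 ∧
              ¬ (x.2.1 = x.2.2.2.1 ∧ x.2.2.1 = x.2.2.2.2.1) ∧
              ¬ (x.2.1 = x.2.2.2.2.1 ∧ x.2.2.1 = x.2.2.2.1) ∧
              (∃ t : ℝ, 0 < t ∧ t < 1 ∧ γ x.1 x.2.1 x.2.2.1 t = x.2.2.2.2.2) ∧
              (∃ t : ℝ, 0 < t ∧ t < 1 ∧ γ x.1 x.2.2.2.1 x.2.2.2.2.1 t = x.2.2.2.2.2)} ≤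
            Set.ncard {x : Fin 2 × V × V × V × V × ℂ |
              G.Adj x.2.1 x.2.2.1 ∧ G.Adj x.2.2.2.1 x.2.2.2.2.1 ∧
              c' x.2.1 x.2.2.1 = x.1 ∧ c' x.2.2.2.1 x.2.2.2.2.1 = x.1 ∧
              ¬ (x.2.1 = x.2.2.2.1 ∧ x.2.2.1 = x.2.2.2.2.1) ∧
              ¬ (x.2.1 = x.2.2.2.2.1 ∧ x.2.2.1 = x.2.2.2.1) ∧
              (∃ t : ℝ, 0 < t ∧ t < 1 ∧ γ' x.1 x.2.1 x.2.2.1 t = x.2.2.2.2.2) ∧
              (∃ t : ℝ, 0 < t ∧ t < 1 ∧ γ' x.1 x.2.2.2.1 x.2.2.2.2.1 t = x.2.2.2.2.2)}) := by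
  intro H
  classical
  have hev : Even (Set.ncard (⊤ : SimpleGraph (Fin 9)).edgeSet) := by
    have : Set.ncard (⊤ : SimpleGraph (Fin 9)).edgeSet = 36 := by
      rw [← SimpleGraph.coe_edgeFinset, Set.ncard_coe_finset,
        SimpleGraph.card_edgeFinset_top_eq_card_choose_two]
      rfl
    rw [this]
    decide
  obtain ⟨c, p, γ, ⟨hc, hp, hγ, hfin⟩, ⟨e⟩, hopt⟩ := H (Fin 9) ⊤ (Or.inl rfl) hev
  have hc' : ∀ u v : Fin 9, u ≠ v → c u v = c v u := fun u v h => hc u v h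
  -- the explicit drawing has at most eight descriptions of crossings
  let F8 : Finset (Fin 2 × Fin 9 × Fin 9 × Fin 9 × Fin 9 × ℂ) :=
    (Pool.Agent.E8helper36.K9.Draw.T8.map (fun q =>
      ((1 : Fin 2), q.1, q.2.1, q.2.2.1, q.2.2.2, Pool.Agent.E8helper36.K9.Draw.z0))).toFinset
  have hF8 : F8.card ≤ 8 := by
    refine (List.toFinset_card_le _).trans ?_
    simp [Pool.Agent.E8helper36.K9.Draw.T8]
  have hsub : {x : Fin 2 × Fin 9 × Fin 9 × Fin 9 × Fin 9 × ℂ |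
              (⊤ : SimpleGraph (Fin 9)).Adj x.2.1 x.2.2.1 ∧ (⊤ : SimpleGraph (Fin 9)).Adj x.2.2.2.1 x.2.2.2.2.1 ∧
              Pool.Agent.E8helper36.K9.Draw.col x.2.1 x.2.2.1 = x.1 ∧
              Pool.Agent.E8helper36.K9.Draw.col x.2.2.2.1 x.2.2.2.2.1 = x.1 ∧
              ¬ (x.2.1 = x.2.2.2.1 ∧ x.2.2.1 = x.2.2.2.2.1) ∧
              ¬ (x.2.1 = x.2.2.2.2.1 ∧ x.2.2.1 = x.2.2.2.1) ∧
              (∃ t : ℝ, 0 < t ∧ t < 1 ∧ Pool.Agent.E8helper36.K9.Draw.arc x.1 x.2.1 x.2.2.1 t = x.2.2.2.2.2) ∧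
              (∃ t : ℝ, 0 < t ∧ t < 1 ∧ Pool.Agent.E8helper36.K9.Draw.arc x.1 x.2.2.2.1 x.2.2.2.2.1 t = x.2.2.2.2.2)} ⊆
      (F8 : Set (Fin 2 × Fin 9 × Fin 9 × Fin 9 × Fin 9 × ℂ)) := by
    rintro ⟨i, u, v, u', v', z⟩ ⟨h1, h2, h3, h4, h5, h6, h7, h8⟩
    obtain ⟨rfl, hT, rfl⟩ := draw_crossing i u v u' v' z h1 h2 h3 h4 h5 h6 h7 h8
    simp only [F8, Finset.mem_coe, List.mem_toFinset, List.mem_map]
    exact ⟨_, hT, rfl⟩
  have hle := hopt Pool.Agent.E8helper36.K9.Draw.col Pool.Agent.E8helper36.K9.Draw.pos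
    Pool.Agent.E8helper36.K9.Draw.arc
    ⟨fun u v _ => Pool.Agent.E8helper36.K9.Draw.col_symm u v, draw_pos_inj,
      fun i u v h _ => draw_valid i u v h, F8.finite_toSet.subset hsub⟩
  have hle8 := hle.trans ((Set.ncard_le_ncard hsub F8.finite_toSet).trans
    ((Set.ncard_coe_finset F8).le.trans hF8))
  -- one of the two planes has no crossing
  have hno : ∃ i : Fin 2, ∀ u v u' v' : Fin 9, ∀ z : ℂ, u ≠ v → u' ≠ v' → c u v = i → c u' v' = i →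
      ¬ (u = u' ∧ v = v') → ¬ (u = v' ∧ v = u') → (∃ t : ℝ, 0 < t ∧ t < 1 ∧ γ i u v t = z) →
      (∃ t : ℝ, 0 < t ∧ t < 1 ∧ γ i u' v' t = z) → False := by
    by_contra hcon
    push Not at hcon
    choose U V U' V' Z g1 g2 g3 g4 g5 g6 g7 g8 using hcon
    have hmem : ∀ (i : Fin 2) (b : Bool × Bool × Bool), eight i (U i) (V i) (U' i) (V' i) (Z i) b ∈
        {x : Fin 2 × Fin 9 × Fin 9 × Fin 9 × Fin 9 × ℂ |
              (⊤ : SimpleGraph (Fin 9)).Adj x.2.1 x.2.2.1 ∧ (⊤ : SimpleGraph (Fin 9)).Adj x.2.2.2.1 x.2.2.2.2.1 ∧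
              c x.2.1 x.2.2.1 = x.1 ∧ c x.2.2.2.1 x.2.2.2.2.1 = x.1 ∧
              ¬ (x.2.1 = x.2.2.2.1 ∧ x.2.2.1 = x.2.2.2.2.1) ∧
              ¬ (x.2.1 = x.2.2.2.2.1 ∧ x.2.2.1 = x.2.2.2.1) ∧
              (∃ t : ℝ, 0 < t ∧ t < 1 ∧ γ x.1 x.2.1 x.2.2.1 t = x.2.2.2.2.2) ∧
              (∃ t : ℝ, 0 < t ∧ t < 1 ∧ γ x.1 x.2.2.2.1 x.2.2.2.2.1 t = x.2.2.2.2.2)} := by
      intro i b
      exact mem_eight c γ hc' i (fun u v h h' => (hγ i u v h h').2.2.2.2.1) (U i) (V i) (U' i) (V' i) (Z i)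
        (g1 i) (g2 i) (g3 i) (g4 i) (fun h => g5 i h.1 h.2) (fun h => g6 i h.1 h.2) (g7 i) (g8 i).1 b
    have hcard : ∀ i : Fin 2, ((Finset.univ : Finset (Bool × Bool × Bool)).image
        (eight i (U i) (V i) (U' i) (V' i) (Z i))).card = 8 := by
      intro i
      rw [Finset.card_image_of_injective _ (eight_inj i _ _ _ _ _ (g1 i) (g2 i)
        (fun h => g5 i h.1 h.2) (fun h => g6 i h.1 h.2))]
      rfl
    have hfst : ∀ (i : Fin 2) (u v u' v' : Fin 9) (z : ℂ) (b : Bool × Bool × Bool),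
        (eight i u v u' v' z b).1 = i := by
      rintro i u v u' v' z ⟨a, b, s⟩
      cases a <;> cases b <;> cases s <;> rfl
    have hdisj : Disjoint ((Finset.univ : Finset (Bool × Bool × Bool)).image
        (eight 0 (U 0) (V 0) (U' 0) (V' 0) (Z 0))) ((Finset.univ : Finset (Bool × Bool × Bool)).image
        (eight 1 (U 1) (V 1) (U' 1) (V' 1) (Z 1))) := by
      rw [Finset.disjoint_left]
      intro x hx hx'
      obtain ⟨b, -, rfl⟩ := Finset.mem_image.mp hx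
      obtain ⟨b', -, hb'⟩ := Finset.mem_image.mp hx'
      have := congrArg Prod.fst hb'
      rw [hfst, hfst] at this
      exact absurd this (by decide)
    have h16 : 16 ≤ Set.ncard {x : Fin 2 × Fin 9 × Fin 9 × Fin 9 × Fin 9 × ℂ |
              (⊤ : SimpleGraph (Fin 9)).Adj x.2.1 x.2.2.1 ∧ (⊤ : SimpleGraph (Fin 9)).Adj x.2.2.2.1 x.2.2.2.2.1 ∧
              c x.2.1 x.2.2.1 = x.1 ∧ c x.2.2.2.1 x.2.2.2.2.1 = x.1 ∧
              ¬ (x.2.1 = x.2.2.2.1 ∧ x.2.2.1 = x.2.2.2.2.1) ∧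
              ¬ (x.2.1 = x.2.2.2.2.1 ∧ x.2.2.1 = x.2.2.2.1) ∧
              (∃ t : ℝ, 0 < t ∧ t < 1 ∧ γ x.1 x.2.1 x.2.2.1 t = x.2.2.2.2.2) ∧
              (∃ t : ℝ, 0 < t ∧ t < 1 ∧ γ x.1 x.2.2.2.1 x.2.2.2.2.1 t = x.2.2.2.2.2)} := by
      have h17 := Set.ncard_le_ncard (s := (((Finset.univ : Finset (Bool × Bool × Bool)).image
        (eight 0 (U 0) (V 0) (U' 0) (V' 0) (Z 0)) ∪ (Finset.univ : Finset (Bool × Bool × Bool)).image
        (eight 1 (U 1) (V 1) (U' 1) (V' 1) (Z 1)) :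
          Finset (Fin 2 × Fin 9 × Fin 9 × Fin 9 × Fin 9 × ℂ)) :
          Set (Fin 2 × Fin 9 × Fin 9 × Fin 9 × Fin 9 × ℂ))) (by
            intro x hx
            rw [Finset.mem_coe, Finset.mem_union] at hx
            rcases hx with hx | hx
            · obtain ⟨b, -, rfl⟩ := Finset.mem_image.mp hx
              exact hmem 0 b
            · obtain ⟨b, -, rfl⟩ := Finset.mem_image.mp hx
              exact hmem 1 b) hfin
      rw [Set.ncard_coe_finset, Finset.card_union_of_disjoint hdisj, hcard 0, hcard 1] at h17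
      exact h17
    omega
  obtain ⟨i, hi⟩ := hno
  have hplane := plane_of_no_crossing c p γ hc' hp hγ i hi
  have both : Pool.Agent.E8helper36.K9.Plane (SimpleGraph.fromRel
      (fun u v => (⊤ : SimpleGraph (Fin 9)).Adj u v ∧ c u v = 0)) ∧
      Pool.Agent.E8helper36.K9.Plane (SimpleGraph.fromRel
      (fun u v => (⊤ : SimpleGraph (Fin 9)).Adj u v ∧ c u v = 1)) := by
    have hi01 : i = 0 ∨ i = 1 := by
      have := i.2
      rcases i with ⟨_ | _ | k, hk⟩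
      · left; rfl
      · right; rfl
      · omega
    rcases hi01 with rfl | rfl
    · exact ⟨hplane, Pool.Agent.E8helper36.K9.Plane.iso e.symm hplane⟩
    · exact ⟨Pool.Agent.E8helper36.K9.Plane.iso e hplane, hplane⟩
  refine Pool.Agent.E8helper36.K9.two_planes (fun u v => decide (c u v = 0)) ?_ ?_
  · intro u v
    by_cases h : u = v
    · rw [h]
    · simp only [hc' u v h]
  · intro d
    cases d with
    | true =>
      refine ⟨_, both.1, ?_⟩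
      intro u v h h'
      rw [SimpleGraph.fromRel_adj]
      exact ⟨h, Or.inl ⟨h, by simpa using h'⟩⟩
    | false =>
      refine ⟨_, both.2, ?_⟩
      intro u v h h'
      rw [SimpleGraph.fromRel_adj]
      refine ⟨h, Or.inl ⟨h, ?_⟩⟩
      have h0 : c u v ≠ 0 := by simpa using h'
      have := (c u v).2
      apply Fin.ext
      have h1 : (c u v).val ≠ 0 := fun h => h0 (Fin.ext h)
      show (c u v).val = 1
      omega


end Pool.Agent.S09406
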