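import Pool.Statements.S10569
import Pool.Agent.E8helper39.WW.Step
import Pool.Agent.E8helper57.WW.NC
import Pool.Agent.E8helper65.WW.TUTTE
import Pool.Agent.E8helper54.WW.Exz
import Pool.Agent.E8helper91.WW.Gp
import Pool.Agent.E8helper87.WW.FIRST
import Pool.Agent.E8helper11.WW.T
import Pool.Agent.E8helper51.WW.W
import Pool.Agent.E8helper10.WW.DIV
import Pool.Agent.E8helper85.WW.Ver
import Pool.Agent.E8helper52.WW.NSV
import Pool.Agent.E8helper89.WW.InjDim
import Pool.Agent.E8helper55.WW.FIN

/-!
# The Wiseman-Wilson conjecture: a Sylvester-Gallai theorem for plane curves of every degree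

The points of the plane are mapped to the space dual to the forms of degree `d`.

* The resulting matroid has no two skew circuits (two dependent sets whose spans meet only in `0`):
  for two dependencies `l`, `m` of degree `d` with supports `C₁`, `C₂` and forms `G`, `H` of degree
  `d + 1` separating a point `p₀` of `C₁` and a point `y₀` of `C₂` from the rest of `C₁ ∪ C₂`, write
  `G(x) H(y) - G(y) H(x) = det (x, y, w(x, y))` with `w` bihomogeneous of degree `(d, d)`; then
  `w(p, y) = a_p(y) p + b_p(y) y` for `p ∈ C₁ \ {p₀}`, and the form
  `q(y) = - ∑ l_p a_p(y) det (p₀, y₀, p)` of degree `d` vanishes on `C₂` except in `y₀`, contradicting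
  the dependency `m`.
* A finite set of nonzero vectors of a real vector space without two skew circuits has a spanned
  hyperplane which contains only linearly independent elements: by a recursion over pairs `(p, H)`
  such that all other elements are of the form `- p + v` with `v` in the closure of one chamber `R` of the
  arrangement of the hyperplanes of `H` spanned by elements.  The recursion needs a spanned hyperplane
  of the connected part of `H` which meets the closure of `R` only in `0`; it exists by induction, since
  for an element `z` which is not in the closure of `R` or `-R` the deletion or the contraction of `z` is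
  connected.
-/

set_option autoImplicit false
open Pool Pool.MP_a50277_co

namespace Pool.Agent.S10569

/-- For every d ≥ 1 and finite set P in the real projective plane, either some degree-d curve contains P, or some degree-d curve meets P in exactly (d+1)(d+2)/2−1 points and is the unique such curve through them, up to scalar. -/
theorem result :
    ∀ d : ℕ, 0 < d → ∀ P : Finset (Projectivization ℝ (Fin 3 → ℝ)),
      (∃ f : MvPolynomial (Fin 3) ℝ, f.IsHomogeneous d ∧ f ≠ 0 ∧
          ∀ p ∈ P, MvPolynomial.eval p.rep f = 0) ∨
      (∃ f : MvPolynomial (Fin 3) ℝ, f.IsHomogeneous d ∧ f ≠ 0 ∧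
          (P.filter (fun p => MvPolynomial.eval p.rep f = 0)).card = (d + 1) * (d + 2) / 2 - 1 ∧
          ∀ g : MvPolynomial (Fin 3) ℝ, g.IsHomogeneous d →
            (∀ p ∈ P, MvPolynomial.eval p.rep f = 0 → MvPolynomial.eval p.rep g = 0) →
            ∃ c : ℝ, g = c • f) := by
  have h1 : WW39.S_NC1 := Pool.Agent.E8helper57.WW.t_NC1
  have h2 : WW39.S_NC2 := Pool.Agent.E8helper57.WW.t_NC2 h1
  have hF : WW39.S_FIRST := Pool.Agent.E8helper87.WW.t_FIRST
  have hG : WW39.S_GP := Pool.Agent.E8helper91.WW.t_GP WW39.t_TUTTE
    Pool.Agent.E8helper54.WW.Exz.t_EXZ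
  have hT : WW39.S_T := WW39.t_T (Pool.Agent.E8helper87.WW.t_START hF)
    (WW39.t_STEP h1 h2 hG hF) h1
  have hN : WW39.S_NSV := Pool.Agent.E8helper52.WW.t_NSV
    (Pool.Agent.E8helper85.WW.t_VER Pool.Agent.E8helper51.WW.t_W WW39.t_DIV)
  exact WW39.t_FIN hT hN Pool.Agent.E8helper89.WW.t_INJ Pool.Agent.E8helper89.WW.t_DIM

end Pool.Agent.S10569
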