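import Pool.Statements.S11473
import Pool.Agent.E8helper22.LMDFinal

set_option autoImplicit false
open Pool Pool.MP_cc29fe_co

namespace Pool.Agent.S11473

/-- Every finite connected graph with n vertices and clique number ω, where n ≥ ω+1 ≥ 4, has a set of at most (ω−2)/(ω−1)·n vertices distinguishing every adjacent pair by distance, i.e. local metric dimension ≤ (ω−2)n/(ω−1). -/
theorem result :
    ∀ (V : Type) [Fintype V] (G : SimpleGraph V), G.Connected →
      ∀ ω : ℕ, (∃ s : Finset V, G.IsNClique ω s) → G.CliqueFree (ω + 1) →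
        4 ≤ ω + 1 → ω + 1 ≤ Fintype.card V →
        ∃ W : Finset V,
          (∀ u v : V, G.Adj u v → ∃ w ∈ W, G.dist u w ≠ G.dist v w) ∧
          (W.card : ℝ) ≤ ((ω : ℝ) - 2) / ((ω : ℝ) - 1) * (Fintype.card V : ℝ) := by
  intro V _ G hconn ω _ hfree h4 hcard
  obtain ⟨W, h1, h2⟩ := Pool.Agent.E8helper22.LMD.local_dim hconn ω hfree h4 hcard
  refine ⟨W, h1, ?_⟩
  obtain ⟨s, rfl⟩ : ∃ s, ω = s + 3 := ⟨ω - 3, by omega⟩
  have e1 : s + 3 - 1 = s + 2 := by omega
  have e2 : s + 3 - 2 = s + 1 := by omega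
  rw [e1, e2] at h2
  have h3 : ((s : ℝ) + 2) * (W.card : ℝ) ≤ ((s : ℝ) + 1) * (Fintype.card V : ℝ) := by
    exact_mod_cast h2
  have hs : (0 : ℝ) ≤ s := Nat.cast_nonneg s
  have e3 : (((s + 3 : ℕ) : ℝ) - 2) / (((s + 3 : ℕ) : ℝ) - 1) * (Fintype.card V : ℝ) =
      ((s : ℝ) + 1) * (Fintype.card V : ℝ) / ((s : ℝ) + 2) := by
    push_cast
    have : ((s : ℝ) + 3 - 1) = s + 2 := by ring
    rw [this]
    have : ((s : ℝ) + 3 - 2) = s + 1 := by ring
    rw [this]
    ring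
  rw [e3, le_div_iff₀ (by positivity)]
  linarith

end Pool.Agent.S11473
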