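import Pool.Statements.S11737
import Pool.Agent.E8helper43.ER.Main
import Pool.Agent.E8helper93.ER.RAM
import Pool.Agent.E8helper12.ER.SHIFT
import Pool.Agent.E8helper29.ER.Tent
import Pool.Agent.E8helper25.ER.Line
import Pool.Agent.E8helper71.ER.Reg
import Pool.Agent.E8helper52.ER.Spx
import Pool.Agent.E8helper64.ER.EXT

set_option autoImplicit false
open Pool Pool.MP_d7e043_co

namespace Pool.Agent.S11737

/-- If a finite set X in R^d is Ramsey (every r-colouring of some R^N has a monochromatic congruent copy), then X, placed in the hyperplane of R^(d+1), together with any point z off that hyperplane is also Ramsey. -/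
theorem result :
    ∀ (d : ℕ) (X : Set (EuclideanSpace ℝ (Fin d))) (z : EuclideanSpace ℝ (Fin (d + 1))),
      X.Finite →
      (∀ r : ℕ, ∃ N : ℕ, ∀ c : EuclideanSpace ℝ (Fin N) → Fin r,
        ∃ g : X → EuclideanSpace ℝ (Fin N), Isometry g ∧ ∀ x y : X, c (g x) = c (g y)) →
      z (Fin.last d) ≠ 0 →
      ∀ r : ℕ, ∃ N : ℕ, ∀ c : EuclideanSpace ℝ (Fin N) → Fin r,
        ∃ g : ({y : EuclideanSpace ℝ (Fin (d + 1)) |
                  y (Fin.last d) = 0 ∧ ∃ x ∈ X, ∀ i : Fin d, y (Fin.castSucc i) = x i}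
                ∪ {z} : Set (EuclideanSpace ℝ (Fin (d + 1)))) → EuclideanSpace ℝ (Fin N),
          Isometry g ∧ ∀ x y, c (g x) = c (g y) := by
  intro d X z hX hR hz
  have hS : Pool.Agent.E8helper43.ER.S_SPX :=
    Pool.Agent.E8helper52.ER.t_SPX
      (Pool.Agent.E8helper25.ER.t_LINE
        (Pool.Agent.E8helper12.ER.t_SHIFT Pool.Agent.E8helper93.ER.t_RAM)
        Pool.Agent.E8helper29.ER.t_TENT)
      Pool.Agent.E8helper71.ER.t_REG
  exact Pool.Agent.E8helper43.ER.one_point hS Pool.Agent.E8helper64.ER.t_EXT hX hR z hz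

end Pool.Agent.S11737
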